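import Pool.Agent.Lib.MP_de485e_gt.Hi.Final
import Pool.Agent.Lib.MP_de485e_gt.Ex.Main
import Pool.Agent.Lib.MP_de485e_gt.Ex.Diff2

/-! Convergence of the mean curvature flow in the unit sphere, any codimension. -/

open Set Filter Topology
open scoped RealInnerProductSpace Manifold ContDiff
open Pool.Agent.Lib.MP_de485e_gt

namespace Pool.Agent.Results.MP_de485e_gt.AllCodim

theorem result (n : ℕ) (hn : 2 ≤ n) (P Q : Type) [NormedAddCommGroup P] [InnerProductSpace ℝ P]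
    [FiniteDimensional ℝ P] [NormedAddCommGroup Q] [InnerProductSpace ℝ Q] [FiniteDimensional ℝ Q]
    (hP : Module.finrank ℝ P = n)
    (M : Type) [TopologicalSpace M] [T2Space M] [CompactSpace M] [ConnectedSpace M]
    [ChartedSpace P M] [IsManifold 𝓘(ℝ, P) ∞ M] (F₀ : M → Q)
    (hs : ContMDiff 𝓘(ℝ, P) 𝓘(ℝ, Q) ∞ F₀) (h1 : ∀ x, ‖F₀ x‖ = 1)
    (hi : ∀ x, Function.Injective (dF P F₀ x))
    (h0 : TauLt P F₀ (4 * √n / (10 ^ 14 + 3 * √n))) :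
    ∃ (T : EReal) (F : ℝ → M → Q), 0 < T ∧ IsSphereMCF P F {t | 0 ≤ t ∧ (t : EReal) < T} ∧
      F 0 = F₀ ∧
      (∀ (S : EReal) (G : ℝ → M → Q), IsSphereMCF P G {t | 0 ≤ t ∧ (t : EReal) < S} → G 0 = F₀ →
        S ≤ T ∧ ∀ t : ℝ, 0 ≤ t → (t : EReal) < S → G t = F t) ∧
      ((∃ S : ℝ, T = S ∧ ∃ (p : Q) (V : Submodule ℝ Q), ‖p‖ = 1 ∧ Module.finrank ℝ V = n + 1 ∧
        (∀ w ∈ V, ⟪p, w⟫ = 0) ∧
        (∀ ε : ℝ, 0 < ε → ∀ᶠ t in 𝓝[<] S, ∀ x,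
          |‖F t x - p‖ / √(2 * n * (S - t)) - 1| ≤ ε ∧
          ‖F t x - p - V.starProjection (F t x - p)‖ ≤ ε * √(2 * n * (S - t)) ∧
          (∀ u, ‖dF P (F t) x u - V.starProjection (dF P (F t) x u)‖ ≤ ε * ‖dF P (F t) x u‖) ∧
          ∀ u v, ‖√(2 * n * (S - t)) • sff P (F t) x u v +
              (⟪dF P (F t) x u, dF P (F t) x v⟫ / √(2 * n * (S - t))) • (F t x - p)‖ ≤
            ε * ‖dF P (F t) x u‖ * ‖dF P (F t) x v‖) ∧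
        ∀ᶠ t in 𝓝[<] S, SubBij V p (F t)) ∨
      (T = ⊤ ∧ ∃ V : Submodule ℝ Q, Module.finrank ℝ V = n + 1 ∧
        (∃ Φ : M → Q, TendstoUniformly F Φ atTop ∧ ∀ x, Φ x ∈ V) ∧
        (∀ ε : ℝ, 0 < ε → ∀ᶠ t in atTop, ∀ x,
          (∀ u, ‖dF P (F t) x u - V.starProjection (dF P (F t) x u)‖ ≤ ε * ‖dF P (F t) x u‖) ∧
          ∀ u v, ‖sff P (F t) x u v‖ ≤ ε * ‖dF P (F t) x u‖ * ‖dF P (F t) x v‖) ∧
        ∀ᶠ t in atTop, SubBij V 0 (F t))) ∧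
      Nonempty (Diffeomorph 𝓘(ℝ, P) (𝓡 n) M
        (Metric.sphere (0 : EuclideanSpace ℝ (Fin (n + 1))) 1) ∞) := by
  have := FiniteDimensional.complete ℝ P
  have := FiniteDimensional.complete ℝ Q
  obtain ⟨p, hq, hp⟩ := Hi.exists_par hn (Module.finrank ℝ Q - n - 1)
  rw [← hp] at h0
  obtain ⟨T, F, hT, h, rfl, hu, hmax⟩ := Ex.exists_max (hn.trans_eq hP.symm) hs h1 hi
  refine ⟨T, F, hT, h, rfl, hu, ?_⟩
  clear hu
  induction T with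
  | bot => exact absurd hT (by simp)
  | coe S =>
    have e : {t : ℝ | 0 ≤ t ∧ (t : EReal) < (S : EReal)} = Ico 0 S := by
      ext t
      simp [EReal.coe_lt_coe_iff]
    rw [e] at h
    obtain ⟨a, ha, G, g⟩ := Hi.finite_case ⟨hn, hP⟩ (EReal.coe_pos.1 hT) h p hq h0
    have k := g.round_point ha (hmax S rfl)
    refine ⟨Or.inl ⟨S, rfl, k⟩, ?_⟩
    obtain ⟨p, V, -, hV, -, k1, k2⟩ := k
    exact Ex.diffeo_fin hn hP (EReal.coe_pos.1 hT) h hV k1 k2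
  | top =>
    have e : {t : ℝ | 0 ≤ t ∧ (t : EReal) < ⊤} = Ici 0 := by
      ext t
      simp
    rw [e] at h
    obtain ⟨a, G, g⟩ := Hi.infinite_case ⟨hn, hP⟩ h p hq h0
    have k := g.great_sphere
    refine ⟨Or.inr ⟨rfl, k⟩, ?_⟩
    obtain ⟨V, hV, ⟨Φ, k0, hΦ⟩, k1, k2⟩ := k
    exact Ex.diffeo_inf hP h hV k0 hΦ ((k1 _ (by norm_num)).mono fun t a x => (a x).1) k2

end Pool.Agent.Results.MP_de485e_gt.AllCodim
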